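import Pool.Agent.helper51.VF.SpecB

/-!
# Project vf, row HOM: the primes of a purely inseparable extension of height one
-/

set_option autoImplicit false

namespace Pool.Agent.VF

open Pool.Agent.PC Pool.Agent.QS MvPolynomial

universe u

theorem HOM_int (R A : Type u) [CommRing R] [CommRing A] [Algebra R A] (p : ℕ) (hp : 0 < p)
    (h : ∀ a : A, ∃ r : R, algebraMap R A r = a ^ p) : Algebra.IsIntegral R A := by
  refine ⟨fun a => ?_⟩
  obtain ⟨r, hr⟩ := h a
  apply IsIntegral.of_pow hp
  rw [← hr]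
  exact isIntegral_algebraMap

theorem HOM_le (R A : Type u) [CommRing R] [CommRing A] [Algebra R A] (p : ℕ) (hp : 0 < p)
    (h : ∀ a : A, ∃ r : R, algebraMap R A r = a ^ p) (Q Q' : Ideal A) (hQ' : Q'.IsPrime)
    (hle : Q.comap (algebraMap R A) ≤ Q'.comap (algebraMap R A)) : Q ≤ Q' := by
  intro a ha
  obtain ⟨r, hr⟩ := h a
  have h1 : a ^ p ∈ Q := Ideal.pow_mem_of_mem Q ha p hp
  rw [← hr] at h1
  have h2 : r ∈ Q'.comap (algebraMap R A) := hle (Ideal.mem_comap.2 h1)
  rw [Ideal.mem_comap, hr] at h2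
  exact hQ'.mem_of_pow_mem p h2

theorem HOM_over (R A : Type u) [CommRing R] [IsDomain R] [CommRing A] [IsDomain A] [Algebra R A]
    [FaithfulSMul R A] [Algebra.IsIntegral R A] (P : Ideal R) (hP : P.IsPrime) :
    ∃ Q : Ideal A, Q.IsPrime ∧ Q.comap (algebraMap R A) = P := by
  apply Ideal.exists_ideal_over_prime_of_isIntegral_of_isDomain P
  rw [(RingHom.injective_iff_ker_eq_bot _).1 (FaithfulSMul.algebraMap_injective R A)]
  exact bot_le

theorem HOM : HOM_stmt.{u} := by
  intro R A _ _ _ _ _ _ p hp h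
  have hint : Algebra.IsIntegral R A := HOM_int R A p hp h
  refine ⟨hint, ?_, fun Q Q' _ hQ' hle => HOM_le R A p hp h Q Q' hQ' hle, ?_⟩
  · intro Q hQ
    let f : PrimeSpectrum A → PrimeSpectrum R := fun q =>
      ⟨q.asIdeal.comap (algebraMap R A), q.isPrime.comap (algebraMap R A)⟩
    have hf : ∀ q q' : PrimeSpectrum A, f q ≤ f q' ↔ q ≤ q' := by
      intro q q'
      constructor
      · intro hle
        exact HOM_le R A p hp h q.asIdeal q'.asIdeal q'.isPrime hle
      · intro hle
        exact Ideal.comap_mono hle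
    have hinj : Function.Injective f := by
      intro q q' hqq
      exact le_antisymm ((hf q q').1 hqq.le) ((hf q' q).1 hqq.ge)
    have hsurj : Function.Surjective f := by
      intro P
      obtain ⟨Q, hQ, hQP⟩ := HOM_over R A P.asIdeal P.isPrime
      exact ⟨⟨Q, hQ⟩, PrimeSpectrum.ext hQP⟩
    let e : PrimeSpectrum A ≃o PrimeSpectrum R :=
      { Equiv.ofBijective f ⟨hinj, hsurj⟩ with
        map_rel_iff' := fun {q q'} => hf q q' }
    have h1 := Order.height_orderIso e ⟨Q, hQ⟩
    rw [← PrimeSpectrum.height_eq_orderHeight, ← PrimeSpectrum.height_eq_orderHeight] at h1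
    exact h1
  · intro P hP
    obtain ⟨Q, hQ, hQP⟩ := HOM_over R A P hP
    have h1 : (P.map (algebraMap R A)).radical = Q := by
      apply le_antisymm
      · rw [hQ.radical_le_iff, Ideal.map_le_iff_le_comap, hQP]
      · intro b hb
        obtain ⟨r, hr⟩ := h b
        refine ⟨p, ?_⟩
        rw [← hr]
        apply Ideal.mem_map_of_mem
        rw [← hQP, Ideal.mem_comap, hr]
        exact Ideal.pow_mem_of_mem Q hb p hp
    rw [h1]
    exact ⟨hQ, hQP⟩

end Pool.Agent.VF
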