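import Pool.Agent.helper51.VF.SpecA

/-!
# Project vf, row TEX: the extension of `τ` to a derivation of `F`
-/

set_option autoImplicit false

namespace Pool.Agent.VF

open Pool.Agent.PC Pool.Agent.QS

universe u

section val

variable {K : Type u} [Field K] {v : K → ℤ}

theorem TEX_one (hv : DVal v) : v 1 = 0 := by
  have h := hv.mul 1 1 one_ne_zero one_ne_zero
  rw [mul_one] at h
  omega

theorem TEX_neg (hv : DVal v) (x : K) (hx : x ≠ 0) : v (-x) = v x := by
  have h1 := hv.mul (-1) (-1) (neg_ne_zero.2 one_ne_zero) (neg_ne_zero.2 one_ne_zero)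
  rw [neg_mul_neg, mul_one, TEX_one hv] at h1
  have h2 := hv.mul (-1) x (neg_ne_zero.2 one_ne_zero) hx
  rw [neg_one_mul] at h2
  omega

theorem TEX_div (hv : DVal v) (x y : K) (hx : x ≠ 0) (hy : y ≠ 0) : v (x / y) = v x - v y := by
  have h := hv.mul (x / y) y (div_ne_zero hx hy) hy
  rw [div_mul_cancel₀ x hy] at h
  omega

theorem TEX_geadd (hv : DVal v) {r : ℤ} {x y : K} (hx : Ge v r x) (hy : Ge v r y) :
    Ge v r (x + y) := by
  by_cases hx0 : x = 0
  · rw [hx0, zero_add]
    exact hy
  by_cases hy0 : y = 0
  · rw [hy0, add_zero]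
    exact hx
  by_cases hxy : x + y = 0
  · exact Or.inl hxy
  have h1 := hx.resolve_left hx0
  have h2 := hy.resolve_left hy0
  exact Or.inr (le_trans (le_min h1 h2) (hv.add x y hx0 hy0 hxy))

theorem TEX_geneg (hv : DVal v) {r : ℤ} {x : K} (hx : Ge v r x) : Ge v r (-x) := by
  by_cases hx0 : x = 0
  · exact Or.inl (by rw [hx0, neg_zero])
  · right
    rw [TEX_neg hv x hx0]
    exact hx.resolve_left hx0

theorem TEX_gediv (hv : DVal v) {r : ℤ} {x y : K} (hx : Ge v r x) (hy : y ≠ 0) :
    Ge v (r - v y) (x / y) := by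
  by_cases hx0 : x = 0
  · exact Or.inl (by rw [hx0, zero_div])
  · right
    rw [TEX_div hv x y hx0 hy]
    have h1 := hx.resolve_left hx0
    omega

theorem TEX_gemul (hv : DVal v) {r s : ℤ} {x y : K} (hx : Ge v r x) (hy : Ge v s y) :
    Ge v (r + s) (x * y) := by
  by_cases hx0 : x = 0
  · exact Or.inl (by rw [hx0, zero_mul])
  by_cases hy0 : y = 0
  · exact Or.inl (by rw [hy0, mul_zero])
  right
  rw [hv.mul x y hx0 hy0]
  exact add_le_add (hx.resolve_left hx0) (hy.resolve_left hy0)

end val

theorem TEX_iter {F K : Type u} [Field F] [Field K] [Algebra F K] (δ : Derivation F K K) (x : K)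
    (hx : δ x = 0) (i : ℕ) (hi : 1 ≤ i) : (⇑δ)^[i] x = 0 := by
  obtain ⟨m, rfl⟩ := Nat.exists_eq_add_of_le hi
  rw [Nat.add_comm, Function.iterate_add_apply, Function.iterate_one, hx]
  clear hi
  induction m with
  | zero => rfl
  | succ m ih => rw [Function.iterate_succ_apply, map_zero, ih]

/-- a derivation of `R` in `K` extends to the field of fractions -/
theorem TEX_ext {k R F K : Type u} [Field k] [CommRing R] [IsDomain R] [Algebra k R] [Field F]
    [Field K] [Algebra k F] [Algebra k K] [Algebra R F] [IsFractionRing R F] [Algebra F K]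
    [Algebra R K] [IsScalarTower k R F] [IsScalarTower k F K] [IsScalarTower R F K] (t : R → K)
    (h1 : t 1 = 0) (hadd : ∀ a b, t (a + b) = t a + t b)
    (hmul : ∀ a b, t (a * b) = algebraMap R K a * t b + algebraMap R K b * t a)
    (hk : ∀ c : k, t (algebraMap k R c) = 0) :
    ∃ T : Derivation k F K, ∀ r : R, T (algebraMap R F r) = t r := by
  have hinj : Function.Injective (algebraMap R K) := by
    rw [IsScalarTower.algebraMap_eq R F K]
    exact (algebraMap F K).injective.comp (IsFractionRing.injective R F)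
  have h0 : t 0 = 0 := by
    have h := hadd 0 0
    rw [add_zero] at h
    exact left_eq_add.1 h
  let Φ : R →+* DualNumber K :=
    { toFun := fun r => TrivSqZeroExt.inl (algebraMap R K r) + TrivSqZeroExt.inr (t r)
      map_one' := by
        rw [h1, map_one, TrivSqZeroExt.inr_zero, add_zero, TrivSqZeroExt.inl_one]
      map_mul' := by
        intro a b
        refine TrivSqZeroExt.ext ?_ ?_
        · simp
        · simp [hmul]
          ring
      map_zero' := by
        rw [h0, map_zero, TrivSqZeroExt.inr_zero, add_zero, TrivSqZeroExt.inl_zero]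
      map_add' := by
        intro a b
        refine TrivSqZeroExt.ext ?_ ?_
        · simp
        · simp [hadd] }
  have hΦ1 : ∀ r, (Φ r).fst = algebraMap R K r := by
    intro r
    change (TrivSqZeroExt.inl (algebraMap R K r) + TrivSqZeroExt.inr (t r) : DualNumber K).fst = _
    simp
  have hΦ2 : ∀ r, (Φ r).snd = t r := by
    intro r
    change (TrivSqZeroExt.inl (algebraMap R K r) + TrivSqZeroExt.inr (t r) : DualNumber K).snd = _
    simp
  have hunit : ∀ s : nonZeroDivisors R, IsUnit (Φ s) := by
    intro s
    rw [TrivSqZeroExt.isUnit_iff_isUnit_fst, hΦ1]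
    refine IsUnit.mk0 _ fun h => ?_
    have h2 : (s : R) = 0 := hinj (by rw [h, map_zero])
    exact nonZeroDivisors.coe_ne_zero s h2
  let L : F →+* DualNumber K := IsLocalization.lift (M := nonZeroDivisors R) hunit
  have hL : ∀ r, L (algebraMap R F r) = Φ r := fun r => IsLocalization.lift_eq hunit r
  have hLf : ∀ f : F, (L f).fst = algebraMap F K f := by
    intro f
    have h3 : ((TrivSqZeroExt.fstHom K K K : DualNumber K →ₐ[K] K) : DualNumber K →+* K).comp L =
        algebraMap F K := by
      refine IsLocalization.ringHom_ext (nonZeroDivisors R) ?_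
      ext r
      change (L (algebraMap R F r)).fst = algebraMap F K (algebraMap R F r)
      rw [hL, hΦ1, ← IsScalarTower.algebraMap_apply R F K]
    exact congrArg (fun φ : F →+* K => φ f) h3
  have hmulT : ∀ f g : F, (L (f * g)).snd = algebraMap F K f * (L g).snd +
      algebraMap F K g * (L f).snd := by
    intro f g
    rw [map_mul, TrivSqZeroExt.snd_mul, hLf, hLf, smul_eq_mul, MulOpposite.smul_eq_mul_unop,
      MulOpposite.unop_op, mul_comm (L f).snd]
  have hkT : ∀ c : k, (L (algebraMap k F c)).snd = 0 := by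
    intro c
    rw [IsScalarTower.algebraMap_apply k R F, hL, hΦ2, hk]
  let T0 : F →ₗ[k] K :=
    { toFun := fun f => (L f).snd
      map_add' := by
        intro f g
        rw [map_add, TrivSqZeroExt.snd_add]
      map_smul' := by
        intro c f
        rw [Algebra.smul_def, hmulT, hkT, mul_zero, add_zero, RingHom.id_apply, Algebra.smul_def,
          ← IsScalarTower.algebraMap_apply k F K] }
  refine ⟨Derivation.mk' T0 ?_, ?_⟩
  · intro f g
    rw [Algebra.smul_def, Algebra.smul_def]
    exact hmulT f g
  · intro r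
    change (L (algebraMap R F r)).snd = t r
    rw [hL, hΦ2]

theorem TEX_der {F K : Type u} [Field F] [Field K] [Algebra F K] (δ : Derivation F K K) (a s : K)
    (hs : s ≠ 0) : δ (a / s) = (δ a - a / s * δ s) / s := by
  have h1 : δ (a / s * s) = δ a := by rw [div_mul_cancel₀ a hs]
  rw [δ.leibniz, smul_eq_mul, smul_eq_mul] at h1
  rw [eq_div_iff hs, ← h1]
  ring

theorem TEX : TEX_stmt.{u} := by
  intro k R A F K _ _ _ _ _ _ _ _ _ _ _ _ _ _ _ _ _ _ _ _ _ _ _ _ _ p _ _ n m y δ τ hpow hτ v j hv hge
  obtain ⟨t1, t2, t3, -, -, t6⟩ := hτ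
  have hp : p.Prime := Fact.out
  have hδR : ∀ r : R, δ (algebraMap A K (algebraMap R A r)) = 0 := by
    intro r
    rw [← IsScalarTower.algebraMap_apply R A K, IsScalarTower.algebraMap_apply R F K]
    exact δ.map_algebraMap _
  have hmul : ∀ a b : R, τ (algebraMap R A (a * b)) = algebraMap R K a * τ (algebraMap R A b) +
      algebraMap R K b * τ (algebraMap R A a) := by
    intro a b
    rw [map_mul, t2, Finset.sum_eq_zero, add_zero, IsScalarTower.algebraMap_apply R A K,
      IsScalarTower.algebraMap_apply R A K]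
    intro i hi
    rw [Finset.mem_Ico] at hi
    rw [TEX_iter δ _ (hδR a) i hi.1, zero_mul, mul_zero]
  obtain ⟨T, hT⟩ := TEX_ext (k := k) (R := R) (F := F) (K := K) (fun r => τ (algebraMap R A r))
    (by
      have h := t3 1
      rw [map_one] at h
      rw [map_one]
      exact h)
    (by
      intro a b
      rw [map_add, t1]) hmul
    (by
      intro c
      rw [← IsScalarTower.algebraMap_apply k R A]
      exact t3 c)
  -- the formula for `T f`, `f s = r`
  have hTf : ∀ (f : F) (r s : R), s ≠ 0 → f * algebraMap R F s = algebraMap R F r →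
      algebraMap R K s ≠ 0 ∧ T f = (τ (algebraMap R A r) - algebraMap F K f * τ (algebraMap R A s)) /
        algebraMap R K s := by
    intro f r s hs hf
    have hsK : algebraMap R K s ≠ 0 := by
      intro h
      apply hs
      rw [IsScalarTower.algebraMap_apply R F K] at h
      exact IsFractionRing.injective R F ((algebraMap F K).injective (by rw [h, map_zero, map_zero]))
    refine ⟨hsK, ?_⟩
    have h1 := congrArg T hf
    rw [T.leibniz, hT, hT, Algebra.smul_def, Algebra.smul_def,
      ← IsScalarTower.algebraMap_apply R F K] at h1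
    rw [eq_div_iff hsK, ← h1]
    ring
  have hfrac : ∀ f : F, ∃ r s : R, s ≠ 0 ∧ f * algebraMap R F s = algebraMap R F r := by
    intro f
    obtain ⟨⟨r, s⟩, h⟩ := IsLocalization.surj (nonZeroDivisors R) f
    exact ⟨r, s, nonZeroDivisors.coe_ne_zero s, h⟩
  refine ⟨T, ?_, ?_⟩
  · intro c f hcf
    obtain ⟨a, b, hb, hab⟩ := IsFractionRing.div_surjective (A := A) c
    have hb0 : b ≠ 0 := nonZeroDivisors.ne_zero hb
    obtain ⟨r, hr⟩ := hpow a
    obtain ⟨s, hs⟩ := hpow b
    have hbK : algebraMap A K b ≠ 0 := fun h => hb0 (IsFractionRing.injective A K (by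
      rw [h, map_zero]))
    have hs0 : s ≠ 0 := by
      rintro rfl
      rw [map_zero] at hs
      exact pow_ne_zero p hb0 hs.symm
    have hrK : algebraMap R K r = algebraMap A K a ^ p := by
      rw [IsScalarTower.algebraMap_apply R A K, hr, map_pow]
    have hsK : algebraMap R K s = algebraMap A K b ^ p := by
      rw [IsScalarTower.algebraMap_apply R A K, hs, map_pow]
    have hf : f * algebraMap R F s = algebraMap R F r := by
      apply (algebraMap F K).injective
      rw [map_mul, ← IsScalarTower.algebraMap_apply R F K, ← IsScalarTower.algebraMap_apply R F K,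
        hcf, hrK, hsK, ← hab, div_pow, div_mul_cancel₀ _ (pow_ne_zero p hbK)]
    obtain ⟨-, h2⟩ := hTf f r s hs0 hf
    rw [h2, hr, hs, t6, t6, hcf, hsK, ← mul_pow, ← sub_pow_char, ← div_pow]
    congr 1
    rw [← hab, TEX_der δ _ _ hbK]
  · intro r f hf
    obtain ⟨a, s, hs, has⟩ := hfrac f
    obtain ⟨hsK, h2⟩ := hTf f a s hs has
    have hge' : ∀ (q : ℤ) (b : R), Ge v q (algebraMap R K b) → Ge v (q + p * j) (τ (algebraMap R A b)) := by
      intro q b hb
      refine hge q _ ?_
      rw [← IsScalarTower.algebraMap_apply R A K]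
      exact hb
    have hak : algebraMap R K a = algebraMap F K f * algebraMap R K s := by
      rw [IsScalarTower.algebraMap_apply R F K a, ← has, map_mul,
        ← IsScalarTower.algebraMap_apply R F K]
    have hgs : Ge v (v (algebraMap R K s)) (algebraMap R K s) := Or.inr le_rfl
    have hga : Ge v (r + v (algebraMap R K s)) (algebraMap R K a) := by
      rw [hak]
      exact TEX_gemul hv hf hgs
    have h3 := TEX_geadd hv (r := r + v (algebraMap R K s) + p * j) (hge' _ _ hga)
      (TEX_geneg hv (by
        have h4 := TEX_gemul hv hf (hge' _ _ hgs)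
        have h5 : r + (v (algebraMap R K s) + p * j) = r + v (algebraMap R K s) + p * j := by ring
        rw [h5] at h4
        exact h4))
    have h6 := TEX_gediv hv h3 hsK
    have h7 : r + v (algebraMap R K s) + p * j - v (algebraMap R K s) = r + p * j := by ring
    rw [h7, ← sub_eq_add_neg, ← h2] at h6
    exact h6

end Pool.Agent.VF
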