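import Pool.Agent.helper51.VF.SpecC
import Pool.Agent.helper51.VF.Lib
import Pool.Agent.helper51.QS.Lib

/-!
# Project vf, row TRF: the three types of primes at the singular points of a foliation
-/

set_option autoImplicit false

namespace Pool.Agent.VF

open Pool.Agent.PC Pool.Agent.QS

universe u

theorem TRF_pow (R A F K : Type u) [CommRing R] [IsDomain R] [CommRing A] [IsDomain A] [Algebra R A]
    [FaithfulSMul R A] [Field F] [Field K] [Algebra R F] [IsFractionRing R F] [Algebra A K]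
    [IsFractionRing A K] [Algebra F K] [Algebra R K] [IsScalarTower R A K] [IsScalarTower R F K]
    (p : ℕ) (h : ∀ a : A, ∃ r : R, algebraMap R A r = a ^ p) (x : K) :
    ∃ f : F, algebraMap F K f = x ^ p := by
  obtain ⟨a, s, hs, rfl⟩ := IsFractionRing.div_surjective A x
  obtain ⟨r, hr⟩ := h a
  obtain ⟨r', hr'⟩ := h s
  refine ⟨algebraMap R F r / algebraMap R F r', ?_⟩
  rw [map_div₀, ← IsScalarTower.algebraMap_apply, ← IsScalarTower.algebraMap_apply,
    IsScalarTower.algebraMap_apply R A K, IsScalarTower.algebraMap_apply R A K, hr, hr', map_pow,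
    map_pow, div_pow]

theorem TRF (hFDR : FDR_stmt.{u}) (hSAT : SAT_stmt.{u}) (hDUA : QS.DUA_stmt.{u})
    (hGEN : QS.GEN_stmt.{u}) (hRNF : RNF_stmt.{u}) (hREG : QS.REG_stmt.{u})
    (hLCF : QS.LCF_stmt.{u}) : TRF_stmt.{u} := by
  intro k R A F K _ _ _ _ _ _ _ _ _ _ _ _ _ _ _ _ _ _ _ _ _ _ _ _ _ _ _ _ n p _ _ hFol x hx hfr
    hfrF hdim hn2 S ω μ hω hμ hyp Q hQ hIQ hSing m₀ t₀ hm₀ hQm₀ heq
  obtain ⟨m, h, y, hm, hQm, hhn, hco, hyQ, hgen⟩ := hGEN k A K n hfr Q hQ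
  have hnoe : IsNoetherianRing A := Algebra.FiniteType.isNoetherianRing k A
  obtain ⟨-, -, hm1⟩ := hLCF k A K n hdim
  rcases Nat.lt_or_ge h 1 with h0 | h0
  · left
    refine ⟨0, Q.zero_mem, fun b hb => Lib_inn_mono hQm ?_ (hgen b hb)⟩
    rw [Ideal.span_le]
    rintro z ⟨i, hi, -⟩
    exact absurd hi (by omega)
  rcases Nat.lt_or_ge h 2 with h1 | h1
  · left
    refine ⟨y ⟨0, by omega⟩, hyQ _ (by exact h0), fun b hb => Lib_inn_mono hQm ?_ (hgen b hb)⟩
    rw [Ideal.span_le]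
    rintro z ⟨i, hi, rfl⟩
    have h2 : i = ⟨0, by omega⟩ := Fin.ext (by
      have h3 : (i : ℕ) = 0 := by omega
      exact h3)
    rw [h2]
    exact Ideal.subset_span rfl
  rcases Nat.lt_or_ge h 3 with h2 | h2
  · right
    left
    have hh : h = 2 := by omega
    subst hh
    have hS : S ≤ m.comap (algebraMap R A) := by
      rw [← Ideal.map_le_iff_le_comap]
      exact Ideal.le_radical.trans (hIQ.trans hQm)
    obtain ⟨g, t, hg, ht, hdis, heqn, hΨ⟩ := hyp m hm hS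
    have hchar : CharP K p := charP_of_injective_algebraMap (algebraMap k K).injective p
    obtain ⟨D, hD⟩ := hDUA k A K n hfr m hm y hco
    obtain ⟨hΔ, -, -⟩ := hFDR F K p hFol.2 (TRF_pow R A F K p hFol.1)
    obtain ⟨φ, hφ⟩ := (hm1 m).2.1 y hco
    obtain ⟨δ, hδ0, hδ⟩ := hSAT k A F K n (by omega) hfr m y D hD (hm1 m).2.2 hΔ
    have hFix : Fix Q δ := hSing δ fun a => LB_mono hQm (hδ.1 a)
    obtain ⟨u, hu, hb⟩ := hRNF k R A F K n p hFol x hx hfr hfrF hdim hn2 ω μ g hω hg hμ m hdis t ht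
      δ hδ0 hδ.1 (hΨ δ hδ0 hδ) Q y φ hQ hQm (hIQ heqn.1) hco hφ (hyQ _ (by exact Nat.zero_lt_two))
      (hyQ _ (by exact Nat.one_lt_two)) hgen hFix
    obtain ⟨s, hs, hst⟩ := heq.2 t heqn.1
    refine ⟨u, hu, fun b hbQ => ?_⟩
    obtain ⟨s', hs', h3⟩ := hb b hbQ
    refine ⟨s * s', fun h4 => (hQ.mem_or_mem h4).elim (fun h5 => hs (hQm₀ h5)) hs', ?_⟩
    rw [Ideal.mem_span_pair] at h3
    obtain ⟨α, β, h3⟩ := h3
    rw [mul_assoc, ← h3]
    have h4 : s * (α * t + β * u) = α * (s * t) + s * β * u := by ring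
    rw [h4]
    refine Ideal.add_mem _ (Ideal.mul_mem_left _ _ ?_) (Ideal.mul_mem_left _ _ (Ideal.subset_span (by simp)))
    exact Ideal.span_mono (by simp) hst
  · right
    right
    have h3 : 3 ≤ n := by omega
    obtain ⟨φ, hφ⟩ := (hm1 m).2.1 y hco
    obtain ⟨hr0, hr1, hr2⟩ := hREG k A n m y φ hφ Q hQ hQm h3
    exact ⟨_, hyQ _ (by exact h0), _, hyQ _ (by exact h1), _, hyQ _ (by exact h2), hr0, hr1, hr2⟩

end Pool.Agent.VF
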